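import Mathlib
import Pool.Prelude.Def_F_b1b78ff3
import Pool.Agent.Zk31.QJ

/-!
# The Hilbert property of quotients of representations of finite groups

The definitions are in the following files.

* `SemilinearRep k α x` (`Pool/Agent/Zk31/QVoc.lean`): for a Galois extension `L/k` and a
  homomorphism `α : B → Gal(L/k)`, the finite group `B` acts faithfully on a finite dimensional
  `L`-vector space `V`, semilinearly with respect to `α`; the `x_i` are coordinates of `V`. If
  `L = k` (then `α = 1`), this is a faithful linear representation of `B` over `k`.
* `affineQuotient k L B x`: the affine quotient `V/B = Spec (L[V]^B)`, with its structure morphism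
  `quotientStr k L B x` to `Spec k`. For surjective `α` it is a form over `k` of the quotient of a
  linear representation of `ker α`.
* `AllHilbert k K`: all integral `k`-schemes `X`, locally of finite type, whose function field is
  `K`, or can be embedded in `K` with `k(X)` algebraically closed in `K`, have the Hilbert property
  over `k` (`HilbertProperty`, and `HilbertPropertyIso` for normal `X`, in `Pool/Agent/W560/HP/`;
  `HasFunctionField` in `Pool/Agent/TH178/HI/CritFin.lean`).
* `Sols k L B α` (`Pool/Agent/Zk31/QC.lean`): for every finite extension `E` of `L` there is a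
  solution field `N` of `α` (`SolField`: a finite Galois extension `N` of `k`, which contains `L`,
  with an isomorphism `Gal(N/k) ≃ B` which transforms `α` into the restriction to `L`) such that
  `N ∩ E = L`.
* `FibPow α m` (`Pool/Agent/Zk31/QI.lean`): the `m`-th fibre power of `α`, with its projection
  `fibPr α m`; `ProperSol k L X β` (`Pool/Agent/N600/UK/Defs.lean`): the embedding problem
  `β : X → Gal(L/k)` has a proper solution.
* `HilbField k` (`Pool/Agent/H391R2/T4/Blueprint.lean`): `k` is a Hilbertian field, for example a
  number field. `IsRealizable k G`: `G` is a Galois group over `k`.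

Part 1. For a semilinear representation: `V/B` has the Hilbert property if and only if all the
varieties in `AllHilbert k (L(V)^B)` have it, if and only if the embedding problem has proper
solutions disjoint over `L` from every finite extension of `L`, if and only if all its fibre powers
have proper solutions.

Part 2. For a linear representation `V` of a finite group `G` over `k`: `V/G` has the Hilbert
property if and only if `G^m` is a Galois group over `k` for all `m`.

Part 3. All quotients `V/G` of faithful linear representations of all finite groups have the Hilbert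
property over `k` if and only if every finite group is a Galois group over `k`.
-/

set_option autoImplicit false

open AlgebraicGeometry Nfff32c05 W560.HP
open Pool.Agent.H391R2.T4 (HilbField)
open Pool.Agent.N600.UK (ProperSol)
open Pool.Agent.Zk31.QVoc Pool.Agent.Zk31.QC Pool.Agent.Zk31.QI

theorem Pool.Agent.Results.MP_87f965_ag.LinearQuotients.result
    (k : Type) [Field k] [CharZero k] (hk : HilbField k) :
    -- Part 1
    (∀ (L B F ι : Type) [Field L] [Algebra k L] [FiniteDimensional k L] [IsGalois k L]
      [Group B] [Finite B] [Field F] [Algebra k F] [Algebra L F] [IsScalarTower k L F]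
      [MulSemiringAction B F] [SMulCommClass B k F] [Finite ι] (α : B →* (L ≃ₐ[k] L)) (x : ι → F),
      SemilinearRep k α x →
      [HilbertProperty k (affineQuotient k L B x) (quotientStr k L B x),
        AllHilbert k (FixedPoints.intermediateField B : IntermediateField k F),
        Sols k L B α,
        ∀ m, ProperSol k L (FibPow α m) (fibPr α m)].TFAE) ∧
    -- Part 2
    (∀ (G F ι : Type) [Group G] [Finite G] [Field F] [Algebra k F] [MulSemiringAction G F]
      [SMulCommClass G k F] [Finite ι] (x : ι → F), SemilinearRep k (1 : G →* (k ≃ₐ[k] k)) x →
      (HilbertProperty k (affineQuotient k k G x) (quotientStr k k G x) ↔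
        ∀ m : ℕ, IsRealizable k (Fin m → G))) ∧
    -- Part 3
    ((∀ (G F ι : Type) [Group G] [Finite G] [Field F] [Algebra k F] [MulSemiringAction G F]
      [SMulCommClass G k F] [Finite ι] (x : ι → F), SemilinearRep k (1 : G →* (k ≃ₐ[k] k)) x →
      HilbertProperty k (affineQuotient k k G x) (quotientStr k k G x)) ↔
      ∀ (G : Type) [Group G] [Finite G], IsRealizable k G) := by
  have h1 := fun (L B F ι : Type) [Field L] [Algebra k L] [FiniteDimensional k L] [IsGalois k L]
    [Group B] [Finite B] [Field F] [Algebra k F] [Algebra L F] [IsScalarTower k L F]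
    [MulSemiringAction B F] [SMulCommClass B k F] [Finite ι] (α : B →* (L ≃ₐ[k] L)) (x : ι → F)
    (h : SemilinearRep k α x) => Pool.Agent.Zk31.QJ.main_tfae hk α x h
  have h2 : ∀ (G F ι : Type) [Group G] [Finite G] [Field F] [Algebra k F]
      [MulSemiringAction G F] [SMulCommClass G k F] [Finite ι] (x : ι → F),
      SemilinearRep k (1 : G →* (k ≃ₐ[k] k)) x →
      (HilbertProperty k (affineQuotient k k G x) (quotientStr k k G x) ↔
        ∀ m : ℕ, IsRealizable k (Fin m → G)) := by
    intro G F ι _ _ _ _ _ _ _ x hx
    rw [((h1 k G F ι 1 x hx).out 0 3 :
      HilbertProperty k (affineQuotient k k G x) (quotientStr k k G x) ↔ _)]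
    exact forall_congr' fun m => Pool.Agent.Zk31.QJ.proper_triv_iff k G m
  refine ⟨fun L B F ι _ _ _ _ _ _ _ _ _ _ _ _ _ α x hx => h1 L B F ι α x hx, h2, ?_, ?_⟩
  · intro h G _ _
    obtain ⟨F, i1, i2, i3, i4, x, hx⟩ := Pool.Agent.Zk31.QJ.exists_regular k G
    have h3 := (h2 G F G x hx).1 (h G F G x hx) 1
    obtain ⟨L, j1, j2, j3, j4, ⟨f⟩⟩ := Pool.Agent.TH59.WX.exists_gal_of k (Fin 1 → G) h3
    have e : G ≃* (Fin 1 → G) := (MulEquiv.piUnique (fun _ : Fin 1 => G)).symm
    exact Pool.Agent.H391R2.isRealizable_of L (e.trans f)
  · intro h G F ι _ _ _ _ _ _ _ x hx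
    exact (h2 G F ι x hx).2 fun m => h (Fin m → G)
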