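import Mathlib
import Pool.Prelude.Def_F_b1b78ff3
import Pool.Agent.Zk31.DM
import Pool.Agent.Zk31.QJ
import Pool.Agent.Zk31.QVoc

/-!
# The Hilbert property of symmetric powers of the varieties `N_{E/k}(x) = P(t)`

The definitions are in the following files.

* `normForm ε x` (`Pool/Agent/Zk31/DA.lean`): the norm form `N_{E/k}(∑ x_k ε_k)` of a finite
  extension `E/k` with basis `ε`.
* `PowerField ε P n t x` (`Pool/Agent/Zk31/DVoc.lean`): `𝔽` is the function field of `X^n` with the
  natural action of the symmetric group `S_n`, where `X` is the variety `N_{E/k}(x) = P(t)`, of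
  dimension `[E : k]`. So the field of invariants of `S_n` is the function field of `Sym^n X`.
* `AllHilbert k K` (`Pool/Agent/Zk31/QVoc.lean`): the Hilbert property of all integral `k`-schemes,
  locally of finite type, whose function field is `K` or embeds in it as a relatively algebraically
  closed subfield.
* `Realizable k K` (`Pool/Agent/TH178/HI/Real.lean`): `K` is a relatively algebraically closed
  subfield of a field of rational functions over `k`, up to isomorphism.
* `HilbField k` (`Pool/Agent/H391R2/T4/Blueprint.lean`): `k` is a Hilbertian field, for example a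
  number field.
-/

set_option autoImplicit false

open Polynomial
open Pool.Agent.H391R2.T4 (HilbField)
open Pool.Agent.TH178.HI (Realizable)
open Pool.Agent.Zk31.QVoc Pool.Agent.Zk31.DA Pool.Agent.Zk31.DVoc

theorem Pool.Agent.Results.MP_87f965_ag.NormVarieties.result
    (k : Type) [Field k] [CharZero k] (hk : HilbField k) {E κ : Type} [Field E] [Algebra k E]
    [FiniteDimensional k E] [Fintype κ] [DecidableEq κ] (ε : Module.Basis κ k E) (P : k[X])
    (hP : P ≠ 0) (m n : ℕ) (hn : n = Module.finrank k E * m) (hm : 2 ≤ m) (h5 : 5 ≤ n)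
    (hd : P.natDegree < n) (𝔽 : Type) [Field 𝔽] [Algebra k 𝔽]
    [MulSemiringAction (Equiv.Perm (Fin n)) 𝔽] [SMulCommClass (Equiv.Perm (Fin n)) k 𝔽]
    (t : Fin n → 𝔽) (x : Fin n → κ → 𝔽) (h : PowerField ε P n t x) :
    Realizable k (FixedPoints.intermediateField (Equiv.Perm (Fin n)) : IntermediateField k 𝔽) ∧
      AllHilbert k
        (FixedPoints.intermediateField (Equiv.Perm (Fin n)) : IntermediateField k 𝔽) := by
  have h1 := Pool.Agent.Zk31.DM.realizable h hP m hm hn h5 hd
  exact ⟨h1, Pool.Agent.Zk31.QJ.allHilbert_of_hpf _ _ (h1.hpf (Pool.Agent.W405.HP.hit k hk))⟩
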