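import Mathlib
import Pool.Prelude.Def_F_b1b78ff3
import Pool.Agent.Zk31.FR
import Pool.Agent.Zk31.QJ
import Pool.Agent.Zk31.QVoc

/-!
# Symmetric powers of conic and quadric bundles: density, the Hilbert property, and the index

Let `a_j ∈ k[t]` be nonzero polynomials, at least two of them, and `X` the variety
`∑ a_j(t) x_j ^ 2 = 1`. Every bundle of conics or quadrics over the projective line with smooth
generic fibre is birational to such a variety. For all large `n` the following are equivalent: the
index of `X` divides `n`; some variety with function field `k(Sym^n X)` has Zariski-dense rational
points; all varieties with this function field have the Hilbert property. So symmetric powers, and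
Hilbert schemes, of `X` satisfy: dense rational points imply the Hilbert property.

The definitions are in the following files.

* `BundlePower a n t x` (`Pool/Agent/Zk31/EVoc.lean`): `𝔽` is the function field of `X^n` with the
  natural action of the symmetric group `S_n`. So the field of invariants of `S_n` is the function
  field of `Sym^n X`.
* `IndexDvd a n` (`Pool/Agent/Zk31/FVoc.lean`): the index of `X`, the greatest common divisor of the
  degrees of the closed points of `X`, divides `n`.
* `DensePoints k X p` (`Pool/Agent/Zk31/FVoc.lean`): the `k`-points of the `k`-scheme `X` are dense.
* `HasFunctionField k X p K` (`Pool/Agent/TH178/HI/CritFin.lean`): the function field of the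
  integral `k`-scheme `X` is `K`.
* `AllHilbert k K` (`Pool/Agent/Zk31/QVoc.lean`): the Hilbert property of all integral `k`-schemes,
  locally of finite type, whose function field is `K` or embeds in it as a relatively algebraically
  closed subfield.
* `Realizable k K` (`Pool/Agent/TH178/HI/Real.lean`): `K` is a relatively algebraically closed
  subfield of a field of rational functions over `k`, up to isomorphism.
* `HilbField k` (`Pool/Agent/H391R2/T4/Blueprint.lean`): `k` is a Hilbertian field, for example a
  number field.

The proof. Write the conic `a_0 X² + a_1 Y² = 1` in Legendre form `α X² + β Y² + γ Z² = 0` with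
squarefree, pairwise coprime `α, β, γ`. The reduced norm of the even Clifford algebra is
`x_0² + βγ x_1² + γα x_2² + αβ x_3²`. Let `f` be its value at a generic vector of polynomials of
bounded degrees, `x_0` monic of degree `m`. Over the root field of `f` the conic has a point. The
main theorem says that the coefficients of `f` are algebraically independent and generate a
relatively algebraically closed subfield of the field of rational functions in the coefficients of
the `x_i`, for one of the three orders of `α, β, γ` and all large `m`. For odd degrees let `f'` be
the polynomial of a closed point of odd degree. The point modulo `f'` gives an ideal of the order;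
the reduced norms of its elements are divisible by `f'`, and one takes the quotients by `f'`. By
Springer's theorem a quadric bundle of index one contains a conic bundle with such a point.
Conversely the generic zero-cycle of degree `n` can be specialised at a rational point.
-/

set_option autoImplicit false

open Polynomial AlgebraicGeometry CategoryTheory
open Pool.Agent.H391R2.T4 (HilbField)
open Pool.Agent.TH178.HI (Realizable HasFunctionField)
open Pool.Agent.Zk31.QVoc Pool.Agent.Zk31.EVoc Pool.Agent.Zk31.FVoc

theorem Pool.Agent.Results.MP_87f965_ag.QuadricBundleIndex.result
    (k : Type) [Field k] [CharZero k] (hk : HilbField k) {κ : Type} [Fintype κ] [DecidableEq κ]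
    (a : κ → k[X]) (ha : ∀ j, a j ≠ 0) (hκ : 2 ≤ Fintype.card κ) :
    ∃ M : ℕ, ∀ n : ℕ, M ≤ n → ∀ (𝔽 : Type) [Field 𝔽] [Algebra k 𝔽]
      [MulSemiringAction (Equiv.Perm (Fin n)) 𝔽] [SMulCommClass (Equiv.Perm (Fin n)) k 𝔽]
      (t : Fin n → 𝔽) (x : Fin n → κ → 𝔽), BundlePower a n t x →
    [IndexDvd a n,
      ∃ (X : Scheme.{0}) (p : X ⟶ Spec (CommRingCat.of k)) (_ : IsIntegral X),
        LocallyOfFiniteType p ∧ HasFunctionField k X p
          (FixedPoints.intermediateField (Equiv.Perm (Fin n)) : IntermediateField k 𝔽) ∧
        DensePoints k X p,
      AllHilbert k
        (FixedPoints.intermediateField (Equiv.Perm (Fin n)) : IntermediateField k 𝔽),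
      Realizable k
        (FixedPoints.intermediateField (Equiv.Perm (Fin n)) : IntermediateField k 𝔽)].TFAE :=
  Pool.Agent.Zk31.FR.main_tfae k κ hk a ha hκ
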