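import Mathlib
import Pool.Prelude.Def_F_b1b78ff3
import Pool.Agent.Zk31.QS

/-!
# The Hilbert property of symmetric powers of quotients of representations

The definitions are in the following files.

* `SemilinearRep k α x`, `affineQuotient`, `quotientStr`, `AllHilbert`
  (`Pool/Agent/Zk31/QVoc.lean`): faithful semilinear representations `V` of a finite group `B` with
  respect to `α : B → Gal(L/k)` (linear representations over `k` if `L = k`), the affine quotient
  `V/B`, and the Hilbert property of all integral `k`-schemes, locally of finite type, whose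
  function field is a given field or embeds in it as a relatively algebraically closed subfield.
* `SymEP α n` (`Pool/Agent/H391R2/T4/Sym.lean`): the symmetric fibre power of `α`, the group of all
  `((b_1, ..., b_n), π, ρ)` with `b_i ∈ B`, `π ∈ S_n`, `ρ ∈ Gal(L/k)`, `α(b_i) = ρ` for all `i`
  (the wreath product of `B` and `S_n` if `L = k`), with its projection `symProj α n` to `Gal(L/k)`.
* `IdxDvd k L B α n` (`Pool/Agent/N600/NS/FinC.lean`): the index of `α`, the greatest common divisor
  of the degrees of the finite extensions of `k` over which `α` has a weak solution, divides `n`.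
* `NaturalPower α x n τ` (`Pool/Agent/Zk31/QS.lean`): `Fn = L(W^n)` with the natural action of
  `SymEP α n`, for a semilinear representation `W` of `B`. The invariants form the function field
  of `Sym^n(W/B)`.
* `EveryQuotient k L P β`, `NoQuotient k L P β` (`Pool/Agent/Zk31/QS.lean`): all, or none, of the
  quotients `V/P` of faithful semilinear representations `V` of `P` with respect to `β` have the
  Hilbert property.
* `HilbField k` (`Pool/Agent/H391R2/T4/Blueprint.lean`): `k` is a Hilbertian field, for example a
  number field.

Part 1. If `n` is large: all quotients of faithful semilinear representations of `SymEP α n` have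
the Hilbert property if the index of `α` divides `n`, and none of them has it otherwise.

Part 2. The explicit version, if `|Gal(L/k)|` divides `n`; this is no condition if `L = k`.

Part 3. `W^n` is a faithful semilinear representation of `SymEP α n`. So parts 1 and 2 apply to
`Sym^n(W/B)`.
-/

set_option autoImplicit false

open AlgebraicGeometry W560.HP
open Pool.Agent.H391R2.T4 (HilbField SymEP symProj)
open Pool.Agent.N600.NS (IdxDvd)
open Pool.Agent.Zk31.QVoc Pool.Agent.Zk31.QS

theorem Pool.Agent.Results.MP_87f965_ag.SymmetricPowers.result
    (k : Type) [Field k] [CharZero k] (hk : HilbField k) (L B : Type) [Field L] [Algebra k L]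
    [FiniteDimensional k L] [IsGalois k L] [Group B] [Finite B] (α : B →* (L ≃ₐ[k] L))
    (hα : Function.Surjective α) :
    -- Part 1
    (∃ n₀ : ℕ, ∀ n ≥ n₀,
      (IdxDvd k L B α n → EveryQuotient k L (SymEP α n) (symProj α n)) ∧
      (¬ IdxDvd k L B α n → NoQuotient k L (SymEP α n) (symProj α n))) ∧
    -- Part 2
    (∀ n : ℕ, ((3 * Nat.card B + 2).factorial) ^ 3 ≤ n → Nat.card (L ≃ₐ[k] L) ∣ n →
      EveryQuotient k L (SymEP α n) (symProj α n)) ∧
    -- Part 3
    (∀ (F ι : Type) [Field F] [Algebra L F] [MulSemiringAction B F] [Nonempty ι] (x : ι → F),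
      SemilinearRep k α x → ∀ n : ℕ, 0 < n → ∀ (Fn : Type) [Field Fn] [Algebra L Fn]
      [MulSemiringAction (SymEP α n) Fn] (τ : Fin n → F →ₐ[L] Fn), NaturalPower α x n τ →
      SemilinearRep k (symProj α n) (fun z : Fin n × ι => τ z.1 (x z.2))) := by
  obtain ⟨h1, h2⟩ := sym_main hk α hα
  refine ⟨h1, h2, ?_⟩
  intro F ι _ _ _ _ x hx n hn Fn _ _ _ τ hτ
  exact hτ.semilinearRep α x n τ hn hx
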